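import Pool.Agent.KTK.Stmts2

/-!
# Squad PRT / KTK, row NBF (helper92): non-Brjuno vectors, the growth condition
-/

set_option autoImplicit false

namespace Pool.Agent.KTK.H92

open Pool.Agent.PRT

/-- **NBF** -/
theorem nbf (_h1 : MxaStmt) (h2 : MxbStmt) (h3 : QkbStmt) (h4 : SmbStmt) (h5 : GrwStmt)
    (h6 : NdlStmt) (h7 : GapStmt) (h8 : RdbStmt) (h9 : EnmStmt) (h10 : NprStmt) : NbfStmt := by
  intro F w C hF hC hw hNB N
  by_contra hcon
  push Not at hcon
  have hNP : NoPer F := h10 F w C hF.eqv hC hw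
  obtain ⟨mono, bnn, bsub, _, bder⟩ := h2 F hF
  obtain ⟨K, hK1, hK⟩ := h3 F hF hNP
  have hpos : ∀ q : ℕ, 1 ≤ q → 0 < nd ((q : ℝ) • w) := by
    intro q hq
    refine norm_pos_iff.2 ?_
    rw [sub_ne_zero]
    exact hw q _ _ hq
  -- the basic inequality
  have key : ∀ q : ℕ, 1 ≤ q →
      -Real.log (nd ((q : ℝ) • w)) ≤ N * (bg F q + Real.log (2 * q)) := by
    intro q hq
    have hp := hpos q hq
    have hq1 : (1 : ℝ) ≤ q := by exact_mod_cast hq
    have h11 : 1 < nd ((q : ℝ) • w) * (q + Real.exp (bg F q)) ^ N :=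
      hcon q (round ((q : ℝ) • w).1) (round ((q : ℝ) • w).2) (Real.exp (bg F q)) hq
        (fun m hm z => bder m q z hm)
    have he : 1 ≤ Real.exp (bg F q) := Real.one_le_exp (bnn q)
    have h12 : (q : ℝ) + Real.exp (bg F q) ≤ 2 * q * Real.exp (bg F q) := by nlinarith
    have hs : 0 < (q : ℝ) + Real.exp (bg F q) := by positivity
    have h13 : 0 < Real.log (nd ((q : ℝ) • w) * (q + Real.exp (bg F q)) ^ N) :=
      Real.log_pos h11
    rw [Real.log_mul hp.ne' (pow_pos hs N).ne', Real.log_pow] at h13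
    have h14 : Real.log (q + Real.exp (bg F q)) ≤ Real.log (2 * q) + bg F q := by
      refine (Real.log_le_log hs h12).trans ?_
      rw [Real.log_mul (by positivity) (Real.exp_pos _).ne', Real.log_exp]
    have h15 : (N : ℝ) * Real.log (q + Real.exp (bg F q)) ≤ N * (Real.log (2 * q) + bg F q) :=
      mul_le_mul_of_nonneg_left h14 (Nat.cast_nonneg N)
    linarith
  obtain ⟨B, hB, hBst, hBn⟩ := h9 (Bst w) (fun q => -Real.log (nd ((q : ℝ) • w)) / q)
    (h8 w hpos hNB)
  have hB1 : ∀ j, 1 ≤ B j := fun j => (hBst j).1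
  have hBg : ∀ j, Real.exp (Real.sqrt (B j)) / 2 ≤ B (j + 1) := by
    intro j
    have hlt : B j < B (j + 1) := hB (Nat.lt_succ_self j)
    have h11 := h7 w (B j) (B (j + 1)) (hB1 j) hlt ((hBst (j + 1)).2.1 (B j) (hB1 j) hlt)
    have hp := hpos (B j) (hB1 j)
    have h12 : nd ((B j : ℝ) • w) ≤ Real.exp (-Real.sqrt (B j)) := by
      rw [← Real.log_le_iff_le_exp hp]
      have := (hBst j).2.2
      linarith
    have h13 : 1 ≤ 2 * (B (j + 1) : ℝ) * Real.exp (-Real.sqrt (B j)) :=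
      h11.trans (mul_le_mul_of_nonneg_left h12 (by positivity))
    rw [Real.exp_neg] at h13
    have h14 : 0 < Real.exp (Real.sqrt (B j)) := Real.exp_pos _
    have h15 : 1 * Real.exp (Real.sqrt (B j)) ≤ 2 * (B (j + 1) : ℝ) := by
      rw [← div_eq_mul_inv, le_div_iff₀ h14] at h13
      exact h13
    linarith
  have hS := h4 (bg F) (1 / 2000) K mono bnn bsub (by norm_num) (by norm_num) (by linarith)
    (fun m n hm hn => hK m n hm hn) B hB hB1 hBg
  have hG := h5 B hB hB1 hBg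
  apply hBn
  refine Summable.of_nonneg_of_le (fun j => ?_) (fun j => ?_) ((hS.add hG).mul_left (N : ℝ))
  · have hp := hpos (B j) (hB1 j)
    have h11 := (h6 ((B j : ℝ) • w)).2.1
    have h12 : Real.log (nd ((B j : ℝ) • w)) ≤ 0 := Real.log_nonpos hp.le (by linarith)
    exact div_nonneg (by linarith) (Nat.cast_nonneg _)
  · have hBp : (0 : ℝ) < B j := by exact_mod_cast hB1 j
    show -Real.log (nd ((B j : ℝ) • w)) / (B j : ℝ) ≤
      N * (bg F (B j) / B j + Real.log (2 * B j) / B j)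
    rw [← add_div, ← mul_div_assoc]
    exact div_le_div_of_nonneg_right (key (B j) (hB1 j)) hBp.le

end Pool.Agent.KTK.H92
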